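import Mathlib
import Pool.Agent.MP_b5eafd_co.Mg.Gap1

set_option autoImplicit false
open Filter Topology

namespace Pool.Agent.Results.MP_b5eafd_co.ExplicitThreshold

theorem result : ∃ θs cstar : ℝ, 1812 / 1000 ≤ θs ∧ θs ≤ 18125 / 10000 ∧
    2 * θs * Real.tanh θs / 3 = Real.log (Real.cosh θs) ∧
    cstar = Real.sqrt θs / (2 * Real.tanh θs) ∧ 0 < cstar ∧
    ∃ δ : ℝ → ℝ, ContinuousOn δ (Set.Ioi cstar) ∧
      (∀ c : ℝ, cstar < c → 0 < δ c ∧ δ c ≤ 1 / 2 ∧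
        ∃ θ : ℝ, θs < θ ∧ θ / Real.tanh θ ^ 2 = 4 * c ^ 2 ∧ δ c = Real.tanh θ / 2) ∧
      ∀ c : ℝ, 0 < c → c ≠ cstar → ∀ m : ℕ → ℕ,
        Tendsto (fun n : ℕ => (m n : ℝ) / (c * (n : ℝ) ^ ((3 : ℝ) / 2))) atTop (𝓝 1) →
        ∀ η : ℝ, 0 < η →
          Tendsto (fun n : ℕ =>
            (({G : SimpleGraph (Fin n) | G.CliqueFree 3 ∧ G.edgeSet.ncard = m n ∧
                |((sSup (Set.range fun S : Finset (Fin n) =>
                      {p : Fin n × Fin n | G.Adj p.1 p.2 ∧ p.1 ∈ S ∧ p.2 ∉ S}.ncard) : ℕ) : ℝ)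
                  - (if c < cstar then 1 / 2 else 1 / 2 + δ c) * (m n : ℝ)| ≤ η * (m n : ℝ)}.ncard
                : ℕ) : ℝ) /
            (({G : SimpleGraph (Fin n) | G.CliqueFree 3 ∧ G.edgeSet.ncard = m n}.ncard : ℕ) : ℝ))
            atTop (𝓝 1) := by
  obtain ⟨θs, hs⟩ := Pool.Agent.MP_b5eafd_co.exists_star
  have h1 := hs.1
  have hθ0 : 0 < θs := by linarith
  have hb : 0 < Pool.Agent.MP_b5eafd_co.bet θs := hθ0.trans_le (Pool.Agent.MP_b5eafd_co.le_bet hθ0)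
  obtain ⟨T, hT, hT'⟩ := Pool.Agent.MP_b5eafd_co.exists_inverse (θs := θs) (by linarith)
  have hsq := Real.sq_sqrt hb.le
  have hs0 := Real.sqrt_pos.2 hb
  have hsg := Pool.Agent.MP_b5eafd_co.sg_pos hθ0
  have hup : ∀ c : ℝ, Real.sqrt (Pool.Agent.MP_b5eafd_co.bet θs) / 2 < c →
      Pool.Agent.MP_b5eafd_co.bet θs < 4 * c ^ 2 := fun c hc => by nlinarith
  have key : ∀ (n : ℕ) (G : SimpleGraph (Fin n)) (a η M : ℝ),
      |((sSup (Set.range fun S : Finset (Fin n) =>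
          {p : Fin n × Fin n | G.Adj p.1 p.2 ∧ p.1 ∈ S ∧ p.2 ∉ S}.ncard) : ℕ) : ℝ) - a * M| ≤ η * M ↔
      (∀ S, Pool.Agent.MP_b5eafd_co.cutG G S ≤ (a + η) * M) ∧
        ∃ S, (a - η) * M ≤ Pool.Agent.MP_b5eafd_co.cutG G S := by
    intro n G a η M
    have hfin : (Set.range fun S : Finset (Fin n) =>
        {p : Fin n × Fin n | G.Adj p.1 p.2 ∧ p.1 ∈ S ∧ p.2 ∉ S}.ncard).Finite := Set.finite_range _
    obtain ⟨S0, hS0⟩ := Nat.sSup_mem (Set.range_nonempty _) hfin.bddAbove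
    have hle : ∀ S : Finset (Fin n), Pool.Agent.MP_b5eafd_co.cutG G S ≤
        Pool.Agent.MP_b5eafd_co.cutG G S0 := by
      intro S
      unfold Pool.Agent.MP_b5eafd_co.cutG
      have := le_csSup hfin.bddAbove (Set.mem_range_self S)
      rw [← hS0] at this
      exact_mod_cast this
    rw [← hS0, abs_le]
    change (-(η * M) ≤ Pool.Agent.MP_b5eafd_co.cutG G S0 - a * M ∧
      Pool.Agent.MP_b5eafd_co.cutG G S0 - a * M ≤ η * M) ↔ _
    constructor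
    · rintro ⟨p, q⟩
      exact ⟨fun S => by linarith [hle S], S0, by linarith⟩
    · rintro ⟨p, S, q⟩
      exact ⟨by linarith [hle S], by linarith [p S0]⟩
  refine ⟨θs, Real.sqrt (Pool.Agent.MP_b5eafd_co.bet θs) / 2, hs.1, hs.2.1, ?_, ?_, by positivity,
    fun c => Pool.Agent.MP_b5eafd_co.sg (T (4 * c ^ 2)) / 2, ?_, ?_, ?_⟩
  · have := hs.2.2
    unfold Pool.Agent.MP_b5eafd_co.fv Pool.Agent.MP_b5eafd_co.sg at this
    linarith
  · unfold Pool.Agent.MP_b5eafd_co.bet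
    rw [Real.sqrt_div hθ0.le, Real.sqrt_sq hsg.le]
    unfold Pool.Agent.MP_b5eafd_co.sg
    ring
  · refine ContinuousOn.div_const (Pool.Agent.MP_b5eafd_co.continuous_sg.comp_continuousOn
      (hT.comp (by fun_prop) fun c hc => hup c hc)) 2
  · intro c hc
    obtain ⟨h2, h5⟩ := hT' _ (hup c hc)
    have h3 := Pool.Agent.MP_b5eafd_co.sg_pos (θ := T (4 * c ^ 2)) (by linarith)
    have h4 := Pool.Agent.MP_b5eafd_co.sg_lt_one (T (4 * c ^ 2))
    exact ⟨by linarith, by linarith, T (4 * c ^ 2), h2, h5, rfl⟩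
  · intro c hc0 hne m hm η hη
    have hm' : Tendsto (fun n : ℕ => (m n : ℝ) / (n : ℝ) ^ ((3 : ℝ) / 2)) atTop (𝓝 c) := by
      have := hm.const_mul c
      rw [mul_one] at this
      refine this.congr fun n => ?_
      rw [← div_div, mul_div_assoc', mul_div_cancel₀ _ hc0.ne']
    simp only [key]
    rcases lt_or_gt_of_ne hne with hc | hc
    · simp only [if_pos hc]
      exact Pool.Agent.MP_b5eafd_co.gap_final_low hs hc0 (by nlinarith) hm' hη
    · simp only [if_neg (not_lt.2 hc.le)]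
      obtain ⟨h2, h3⟩ := hT' _ (hup c hc)
      exact Pool.Agent.MP_b5eafd_co.gap_final_high hs h2 hc0 h3 hm' hη

end Pool.Agent.Results.MP_b5eafd_co.ExplicitThreshold
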